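import Pool.Agent.Helper77.SND.Stmts

set_option autoImplicit false

/-! Module TWO: two members with at most one shared point. -/

namespace Pool.Agent.Helper77.SND

def two_good {E K L : Type} (lam : E → K → L) (F : Finset E) (α : E) : Prop :=
  ∀ β ∈ F, ∀ β' ∈ F, β ≠ α → β' ≠ α →
    ∀ k k' l l' : K, lam α k = lam β l → lam α k' = lam β' l' → k = k'

theorem two_bad {E K L : Type} [DecidableEq E] (lam : E → K → L)
    (hinj : ∀ α, Function.Injective (lam α)) (F : Finset E) (α β : E) (hαF : α ∈ F)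
    (hα : two_good lam F α) (hβF : β ∈ F) (hβα : β ≠ α) (hβ : two_good lam (F.erase α) β)
    (hbad : ¬ two_good lam F β) :
    ∃ k0 k1 l0 l1 : K, ∃ γ ∈ F.erase α, γ ≠ β ∧ k0 ≠ k1 ∧ lam β k0 = lam α l0 ∧
      lam β k1 = lam γ l1 := by
  by_contra hcon
  push Not at hcon
  apply hbad
  intro β1 h1 β2 h2 hn1 hn2 k k' l l' e1 e2
  by_contra hk
  by_cases ha1 : β1 = α
  · by_cases ha2 : β2 = α
    · subst ha1
      subst ha2
      have hl : l = l' := hα β hβF β hβF hβα hβα l l' k k' e1.symm e2.symm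
      rw [← hl] at e2
      exact hk (hinj β (e1.trans e2.symm))
    · rw [ha1] at e1
      exact hcon k k' l l' β2 (Finset.mem_erase.2 ⟨ha2, h2⟩) hn2 hk e1 e2
  · by_cases ha2 : β2 = α
    · rw [ha2] at e2
      exact hcon k' k l' l β1 (Finset.mem_erase.2 ⟨ha1, h1⟩) hn1 (Ne.symm hk) e2 e1
    · exact hk (hβ β1 (Finset.mem_erase.2 ⟨ha1, h1⟩) β2 (Finset.mem_erase.2 ⟨ha2, h2⟩) hn1 hn2
        k k' l l' e1 e2)

theorem st_TWO : ST_TWO := by
  classical
  intro E K L r lam hinj hsp
  have main : ∀ n : ℕ, 2 ≤ n → ∀ F : Finset E, F.card = n → F.card ≤ r →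
      ∃ α₁ ∈ F, ∃ α₂ ∈ F, α₁ ≠ α₂ ∧ two_good lam F α₁ ∧ two_good lam F α₂ := by
    intro n hn
    induction n, hn using Nat.le_induction with
    | base =>
      intro F hF hr
      obtain ⟨α, hα, hg⟩ := hsp F (Finset.card_pos.1 (by omega)) hr
      have hc : (F.erase α).card = 1 := by
        rw [Finset.card_erase_of_mem hα]
        omega
      obtain ⟨β, hβ⟩ := Finset.card_eq_one.1 hc
      have hβ' : β ∈ F.erase α := by
        rw [hβ]
        exact Finset.mem_singleton_self β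
      have hβF := Finset.mem_of_mem_erase hβ'
      have hβα := Finset.ne_of_mem_erase hβ'
      refine ⟨α, hα, β, hβF, Ne.symm hβα, hg, ?_⟩
      intro γ h1 γ' h2 hn1 hn2 k k' l l' e1 e2
      have aux : ∀ γ ∈ F, γ ≠ β → γ = α := by
        intro γ h1 hn1
        by_contra hne
        have : γ ∈ F.erase α := Finset.mem_erase.2 ⟨hne, h1⟩
        rw [hβ] at this
        exact hn1 (Finset.mem_singleton.1 this)
      rw [aux γ h1 hn1] at e1
      rw [aux γ' h2 hn2] at e2
      have hl : l = l' := hg β hβF β hβF hβα hβα l l' k k' e1.symm e2.symm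
      rw [← hl] at e2
      exact hinj β (e1.trans e2.symm)
    | succ n hn ih =>
      intro F hF hr
      obtain ⟨α, hα, hg⟩ := hsp F (Finset.card_pos.1 (by omega)) hr
      have hg' : two_good lam F α := hg
      have hc : (F.erase α).card = n := by
        rw [Finset.card_erase_of_mem hα]
        omega
      obtain ⟨β, hβ, γ, hγ, hne, gβ, gγ⟩ := ih (F.erase α) hc (by omega)
      have hβF := Finset.mem_of_mem_erase hβ
      have hβα := Finset.ne_of_mem_erase hβ
      have hγF := Finset.mem_of_mem_erase hγ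
      have hγα := Finset.ne_of_mem_erase hγ
      by_cases hb : two_good lam F β
      · exact ⟨α, hα, β, hβF, Ne.symm hβα, hg', hb⟩
      by_cases hc' : two_good lam F γ
      · exact ⟨α, hα, γ, hγF, Ne.symm hγα, hg', hc'⟩
      obtain ⟨k0, k1, l0, l1, δ, hδ, hδβ, hk, e0, e1⟩ :=
        two_bad lam hinj F α β hα hg' hβF hβα gβ hb
      obtain ⟨c0, c1, d0, d1, δ', hδ', hδγ, hc0, f0, f1⟩ :=
        two_bad lam hinj F α γ hα hg' hγF hγα gγ hc'
      have hl : l0 = d0 := hg' β hβF γ hγF hβα hγα l0 d0 k0 c0 e0.symm f0.symm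
      have h2 : lam β k0 = lam γ c0 := by rw [e0, f0, hl]
      exact absurd (gβ γ hγ δ hδ (Ne.symm hne) hδβ k0 k1 c0 l1 h2 e1) hk
  intro F h2 hr
  obtain ⟨α₁, h1, α₂, h2', hne, g1, g2⟩ := main F.card h2 F rfl hr
  refine ⟨α₁, h1, α₂, h2', hne, ?_⟩
  rintro α (rfl | rfl)
  · exact g1
  · exact g2

end Pool.Agent.Helper77.SND
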